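import Pool.Agent.Q89.JC.Cs

/-!
# The block map and the decomposition obstruction
-/

set_option autoImplicit false
set_option linter.unusedSectionVars false

open scoped ComplexConjugate InnerProductSpace

noncomputable section

namespace Q89.JC

section lower

variable {A B H : Type} [NonUnitalCStarAlgebra A] [PartialOrder A] [StarOrderedRing A]
  [NonUnitalCStarAlgebra B] [PartialOrder B] [StarOrderedRing B]
  [NormedAddCommGroup H] [InnerProductSpace ℂ H]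
variable {p : ℕ} [Fact p.Prime]

/-- orthogonal projections -/
def OP (E : ZMod p → A) : Prop := ∀ i j, star (E i) * E j = if i = j then E i else 0

lemma test_bound (φ : A →ₗ[ℂ] B →ₗ[ℂ] (H →L[ℂ] H)) (C : ℝ)
    (hC : ∀ (n : ℕ) (a : CStarMatrix (Fin n) (Fin n) A)
            (b : CStarMatrix (Fin n) (Fin n) B) (x : Fin n → H),
            ∑ i : Fin n, ‖∑ j : Fin n, ∑ k : Fin n, φ (a i k) (b k j) (x j)‖ ^ 2
              ≤ (C * ‖a‖ * ‖b‖) ^ 2 * ∑ j : Fin n, ‖x j‖ ^ 2)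
    {E : ZMod p → A} {F : ZMod p → B} (hE : OP E) (hF : OP F)
    (γ : ZMod p → ZMod p → ℂ) (hγ : ∀ i k, ‖γ i k‖ = 1) (ξ : H) (hξ : ‖ξ‖ ≤ 1) :
    ∑ i : ZMod p, ‖∑ k : ZMod p, γ i k • φ (E (i + k)) (F k) ξ‖ ^ 2 ≤ C ^ 2 := by
  set j0 : Fin p := (eqv p).symm 0 with hj0
  have hj0' : eqv p j0 = 0 := (eqv p).apply_symm_apply 0
  have h := hC p (tm γ E) (tm (fun _ _ => 1) F) (fun j => if j = j0 then ξ else 0)
  have h1 : ∀ i : Fin p, ∑ j : Fin p, ∑ k : Fin p, φ (tm γ E i k) (tm (fun _ _ => 1) F k j)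
      (if j = j0 then ξ else 0)
      = ∑ k : ZMod p, γ (eqv p i) k • φ (E (eqv p i + k)) (F k) ξ := by
    intro i
    rw [Finset.sum_eq_single j0]
    · rw [← Equiv.sum_comp (eqv p)]
      refine Finset.sum_congr rfl fun k _ => ?_
      rw [if_pos rfl, tm_apply, tm_apply, hj0', one_smul, add_zero, map_smul]
      rfl
    · intro j _ hj
      simp [hj]
    · intro h
      exact absurd (Finset.mem_univ _) h
  simp_rw [h1] at h
  rw [Equiv.sum_comp (eqv p)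
    (fun i => ‖∑ k : ZMod p, γ i k • φ (E (i + k)) (F k) ξ‖ ^ 2)] at h
  refine h.trans ?_
  have h2 : ∑ j : Fin p, ‖(if j = j0 then ξ else 0 : H)‖ ^ 2 ≤ 1 := by
    rw [Finset.sum_eq_single j0]
    · rw [if_pos rfl]
      nlinarith [norm_nonneg ξ]
    · intro j _ hj
      simp [hj]
    · intro h
      exact absurd (Finset.mem_univ _) h
  have h3 : (C * ‖tm γ E‖ * ‖tm (fun _ _ => 1) F‖) ^ 2 ≤ C ^ 2 := by
    rw [mul_pow, mul_pow, mul_assoc]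
    refine mul_le_of_le_one_right (sq_nonneg _) ?_
    have e1 := norm_tm_le γ hγ E hE
    have e2 := norm_tm_le (fun _ _ => (1 : ℂ)) (by simp) F hF
    rw [← mul_pow]
    exact pow_le_one₀ (by positivity) (mul_le_one₀ e1 (norm_nonneg _) e2)
  calc _ ≤ C ^ 2 * 1 := by
        refine mul_le_mul h3 h2 (Finset.sum_nonneg fun _ _ => sq_nonneg _) (sq_nonneg _)
    _ = _ := mul_one _

/-- The obstruction. -/
theorem obstruction (φ : A →ₗ[ℂ] B →ₗ[ℂ] (H →L[ℂ] H)) (φ₁ : A →ₗ[ℂ] B →ₗ[ℂ] (H →L[ℂ] H))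
    (φ₂ : B →ₗ[ℂ] A →ₗ[ℂ] (H →L[ℂ] H)) (C₁ C₂ : ℝ)
    (hC₁ : ∀ (n : ℕ) (a : CStarMatrix (Fin n) (Fin n) A)
            (b : CStarMatrix (Fin n) (Fin n) B) (x : Fin n → H),
            ∑ i : Fin n, ‖∑ j : Fin n, ∑ k : Fin n, φ₁ (a i k) (b k j) (x j)‖ ^ 2
              ≤ (C₁ * ‖a‖ * ‖b‖) ^ 2 * ∑ j : Fin n, ‖x j‖ ^ 2)
    (hC₂ : ∀ (n : ℕ) (b : CStarMatrix (Fin n) (Fin n) B)
            (a : CStarMatrix (Fin n) (Fin n) A) (x : Fin n → H),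
            ∑ i : Fin n, ‖∑ j : Fin n, ∑ k : Fin n, φ₂ (b i k) (a k j) (x j)‖ ^ 2
              ≤ (C₂ * ‖b‖ * ‖a‖) ^ 2 * ∑ j : Fin n, ‖x j‖ ^ 2)
    (hφ : ∀ (a : A) (b : B), φ a b = φ₁ a b + φ₂ b a)
    {E : ZMod p → A} {F : ZMod p → B} (hE : OP E) (hF : OP F)
    (e : ZMod p → H) (he : ∀ s, ‖e s‖ = 1) (ξ : H) (hξ : ‖ξ‖ ≤ 1) (l : ℝ)
    (hv : ∀ m k, φ (E m) (F k) ξ = ((l : ℂ) * cc m k) • e (m - k)) :
    l ^ 2 * p ^ 3 ≤ 2 * C₁ ^ 2 + 2 * C₂ ^ 2 := by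
  have h1 := test_bound φ₁ C₁ hC₁ hE hF (fun i k => conj (cc (i + k) k))
    (fun i k => by rw [RCLike.norm_conj, norm_cc]) ξ hξ
  have h2 := test_bound φ₂ C₂ hC₂ hF hE (fun i k => conj (cc k (i + k)))
    (fun i k => by rw [RCLike.norm_conj, norm_cc]) ξ hξ
  have h3 : ∀ s : ZMod p, ∑ k : ZMod p, conj (cc (s + k) k) • φ (E (s + k)) (F k) ξ
      = ((l : ℂ) * p) • e s := by
    intro s
    have h4 : ∀ k : ZMod p, conj (cc (s + k) k) • φ (E (s + k)) (F k) ξ = (l : ℂ) • e s := by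
      intro k
      rw [hv, smul_smul, add_sub_cancel_right]
      congr 1
      calc conj (cc (s + k) k) * ((l : ℂ) * cc (s + k) k)
          = l * (conj (cc (s + k) k) * cc (s + k) k) := by ring
        _ = l := by rw [Complex.conj_mul', norm_cc]; simp
    simp_rw [h4]
    rw [Finset.sum_const, Finset.card_univ, ZMod.card, ← Nat.cast_smul_eq_nsmul ℂ, smul_smul,
      mul_comm]
  have h5 : ∀ s : ZMod p, ∑ k : ZMod p, conj (cc (s + k) k) • φ (E (s + k)) (F k) ξ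
      = (∑ k : ZMod p, conj (cc (s + k) k) • φ₁ (E (s + k)) (F k) ξ)
        + ∑ k : ZMod p, conj (cc k (-s + k)) • φ₂ (F (-s + k)) (E k) ξ := by
    intro s
    have h6 : ∑ k : ZMod p, conj (cc k (-s + k)) • φ₂ (F (-s + k)) (E k) ξ
        = ∑ k : ZMod p, conj (cc (s + k) k) • φ₂ (F k) (E (s + k)) ξ := by
      rw [← Equiv.sum_comp (Equiv.addLeft s)]
      refine Finset.sum_congr rfl fun k _ => ?_
      simp only [Equiv.coe_addLeft, neg_add_cancel_left]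
    rw [h6, ← Finset.sum_add_distrib]
    refine Finset.sum_congr rfl fun k _ => ?_
    rw [hφ, add_apply, smul_add]
  have h6 : ∑ s : ZMod p, ‖∑ k : ZMod p, conj (cc k (-s + k)) • φ₂ (F (-s + k)) (E k) ξ‖ ^ 2
      ≤ C₂ ^ 2 := by
    refine le_trans (le_of_eq ?_) h2
    exact Equiv.sum_comp (Equiv.neg (ZMod p))
      (fun s => ‖∑ k : ZMod p, conj (cc k (s + k)) • φ₂ (F (s + k)) (E k) ξ‖ ^ 2)
  have h7 : ∑ s : ZMod p, ‖((l : ℂ) * p) • e s‖ ^ 2 = l ^ 2 * p ^ 3 := by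
    have : ∀ s : ZMod p, ‖((l : ℂ) * p) • e s‖ ^ 2 = l ^ 2 * p ^ 2 := by
      intro s
      rw [norm_smul, he, mul_one, norm_mul, Complex.norm_real, Complex.norm_natCast, mul_pow,
        Real.norm_eq_abs, sq_abs]
    simp_rw [this]
    rw [Finset.sum_const, Finset.card_univ, ZMod.card, nsmul_eq_mul]
    ring
  rw [← h7]
  calc ∑ s : ZMod p, ‖((l : ℂ) * p) • e s‖ ^ 2
      ≤ ∑ s : ZMod p, (2 * ‖∑ k : ZMod p, conj (cc (s + k) k) • φ₁ (E (s + k)) (F k) ξ‖ ^ 2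
        + 2 * ‖∑ k : ZMod p, conj (cc k (-s + k)) • φ₂ (F (-s + k)) (E k) ξ‖ ^ 2) := by
        refine Finset.sum_le_sum fun s _ => ?_
        rw [← h3 s, h5 s]
        set u := ∑ k : ZMod p, conj (cc (s + k) k) • φ₁ (E (s + k)) (F k) ξ
        set v := ∑ k : ZMod p, conj (cc k (-s + k)) • φ₂ (F (-s + k)) (E k) ξ
        have := norm_add_le u v
        nlinarith [sq_nonneg (‖u‖ - ‖v‖), norm_nonneg (u + v), norm_nonneg u, norm_nonneg v]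
    _ = 2 * ∑ s : ZMod p, ‖∑ k : ZMod p, conj (cc (s + k) k) • φ₁ (E (s + k)) (F k) ξ‖ ^ 2
        + 2 * ∑ s : ZMod p, ‖∑ k : ZMod p, conj (cc k (-s + k)) • φ₂ (F (-s + k)) (E k) ξ‖ ^ 2 := by
        rw [Finset.sum_add_distrib, Finset.mul_sum, Finset.mul_sum]
    _ ≤ 2 * C₁ ^ 2 + 2 * C₂ ^ 2 := by linarith

end lower

section upper

variable {A B H : Type} [NonUnitalCStarAlgebra A] [PartialOrder A] [StarOrderedRing A]
  [NonUnitalCStarAlgebra B] [PartialOrder B] [StarOrderedRing B]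
  [NormedAddCommGroup H] [InnerProductSpace ℂ H]
variable {p : ℕ} [Fact p.Prime]

/-- rank one operators -/
def R1 (e0 e : H) : H →L[ℂ] H := (innerSL ℂ e0).smulRight e

lemma R1_apply (e0 e x : H) : R1 e0 e x = ⟪e0, x⟫_ℂ • e := by
  simp [R1]

/-- The block map -/
def blk (χ : ZMod p → (A →⋆ₙₐ[ℂ] ℂ)) (η : ZMod p → (B →⋆ₙₐ[ℂ] ℂ)) (e : ZMod p → H) (e0 : H)
    (f : A) (g : B) : H →L[ℂ] H :=
  ∑ s : ZMod p, (∑ j, cc (j + s) j * (χ (j + s) f * η j g)) • R1 e0 (e s)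

lemma blk_apply (χ : ZMod p → (A →⋆ₙₐ[ℂ] ℂ)) (η : ZMod p → (B →⋆ₙₐ[ℂ] ℂ)) (e : ZMod p → H)
    (e0 : H) (f : A) (g : B) (x : H) : blk χ η e e0 f g x
      = ∑ s : ZMod p, ((∑ j, cc (j + s) j * (χ (j + s) f * η j g)) * ⟪e0, x⟫_ℂ) • e s := by
  rw [blk, sum_apply]
  refine Finset.sum_congr rfl fun s _ => ?_
  rw [smul_apply, R1_apply, smul_smul]

lemma norm_sum_orth {e : ZMod p → H} (he : Orthonormal ℂ e) (c : ZMod p → ℂ) :
    ‖∑ s, c s • e s‖ ^ 2 = ∑ s, ‖c s‖ ^ 2 := by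
  rw [← inner_self_eq_norm_sq (𝕜 := ℂ), he.inner_sum]
  simp only [RCLike.conj_mul]
  rw [map_sum]
  refine Finset.sum_congr rfl fun s _ => ?_
  rw [← RCLike.ofReal_pow, RCLike.ofReal_re]

theorem blk_jcb (hp2 : p ≠ 2) (χ : ZMod p → (A →⋆ₙₐ[ℂ] ℂ)) (η : ZMod p → (B →⋆ₙₐ[ℂ] ℂ))
    {e : ZMod p → H} (he : Orthonormal ℂ e) {e0 : H} (he0 : ‖e0‖ ≤ 1) {n m : ℕ}
    (a : CStarMatrix (Fin n) (Fin n) A) (b : CStarMatrix (Fin m) (Fin m) B)
    (x : Fin n × Fin m → H) :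
    ∑ P : Fin n × Fin m, ‖∑ Q : Fin n × Fin m, blk χ η e e0 (a P.1 Q.1) (b P.2 Q.2) (x Q)‖ ^ 2
      ≤ 2 * p ^ 2 * Real.sqrt p * (‖a‖ * ‖b‖) ^ 2 * ∑ Q, ‖x Q‖ ^ 2 := by
  have h := block_vec hp2 (fun i => evm (χ i) a) (fun i => evm (η i) b)
    (fun i => norm_evm_le _ _) (fun i => norm_evm_le _ _) (fun Q => ⟪e0, x Q⟫_ℂ)
  have h1 : ∑ P : Fin n × Fin m,
      ‖∑ Q : Fin n × Fin m, blk χ η e e0 (a P.1 Q.1) (b P.2 Q.2) (x Q)‖ ^ 2
      = ∑ s : ZMod p, ∑ P : Fin n × Fin m, ‖∑ Q : Fin n × Fin m,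
      (∑ j, cc (j + s) j * (evm (χ (j + s)) a P.1 Q.1 * evm (η j) b P.2 Q.2)) *
        ⟪e0, x Q⟫_ℂ‖ ^ 2 := by
    rw [Finset.sum_comm]
    refine Finset.sum_congr rfl fun P _ => ?_
    simp_rw [blk_apply]
    rw [Finset.sum_comm]
    simp_rw [← Finset.sum_smul]
    rw [norm_sum_orth he]
    rfl
  rw [h1]
  refine h.trans ?_
  refine mul_le_mul_of_nonneg_left ?_ (by positivity)
  refine Finset.sum_le_sum fun Q _ => ?_
  have h2 : ‖⟪e0, x Q⟫_ℂ‖ ≤ ‖x Q‖ :=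
    (norm_inner_le_norm _ _).trans (mul_le_of_le_one_left (norm_nonneg _) he0)
  exact pow_le_pow_left₀ (norm_nonneg _) h2 2

end upper

end Q89.JC
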