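import Pool.Agent.Q89.JC.Cub

/-!
# Matrices over C*-algebras: characters and test elements
-/

set_option autoImplicit false
set_option linter.unusedSectionVars false

open scoped Matrix Matrix.Norms.L2Operator ComplexConjugate InnerProductSpace

noncomputable section

namespace Q89.JC

section ev

variable {A : Type} [NonUnitalCStarAlgebra A] [PartialOrder A] [StarOrderedRing A]

/-- evaluation of a matrix at a character -/
def evm {n : ℕ} (χ : A →⋆ₙₐ[ℂ] ℂ) :
    CStarMatrix (Fin n) (Fin n) A →⋆ₙₐ[ℂ] Matrix (Fin n) (Fin n) ℂ where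
  toFun a := Matrix.of fun i j => χ (a i j)
  map_smul' c x := by ext i j; simp
  map_zero' := by ext i j; simp [CStarMatrix.zero_apply]
  map_add' x y := by ext i j; simp
  map_mul' x y := by
    ext i j
    simp [Matrix.mul_apply, CStarMatrix.mul_apply, map_sum]
  map_star' x := by
    ext i j
    simp [CStarMatrix.star_apply, map_star]

lemma norm_evm_le {n : ℕ} (χ : A →⋆ₙₐ[ℂ] ℂ) (a : CStarMatrix (Fin n) (Fin n) A) :
    ‖evm χ a‖ ≤ ‖a‖ := NonUnitalStarAlgHom.norm_apply_le _ _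

lemma norm_char_le (χ : A →⋆ₙₐ[ℂ] ℂ) (a : A) :
    ‖χ a‖ ≤ ‖a‖ := NonUnitalStarAlgHom.norm_apply_le _ _

end ev

section vec

variable {p : ℕ} [Fact p.Prime]

lemma block_vec1 (hp2 : p ≠ 2) {n m : ℕ} (a : ZMod p → Matrix (Fin n) (Fin n) ℂ)
    (b : ZMod p → Matrix (Fin m) (Fin m) ℂ)
    (ha : ∀ i, ‖a i‖ ≤ 1) (hb : ∀ i, ‖b i‖ ≤ 1) (y : Fin n × Fin m → ℂ) :
    ∑ s : ZMod p, ∑ P : Fin n × Fin m, ‖∑ Q : Fin n × Fin m,
      (∑ j, cc (j + s) j * (a (j + s) P.1 Q.1 * b j P.2 Q.2)) * y Q‖ ^ 2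
      ≤ 2 * p ^ 2 * Real.sqrt p * ∑ Q, ‖y Q‖ ^ 2 := by
  have h := block hp2 a b ha hb (Matrix.of fun i r => y (i, r))
  refine le_trans (le_of_eq ?_) (h.trans (le_of_eq ?_))
  · refine Finset.sum_congr rfl fun s _ => ?_
    rw [hs, Fintype.sum_prod_type]
    refine Finset.sum_congr rfl fun i _ => Finset.sum_congr rfl fun r _ => ?_
    congr 2
    rw [Matrix.sum_apply]
    simp only [Matrix.smul_apply, smul_eq_mul, Matrix.mul_apply, Matrix.transpose_apply,
      Matrix.of_apply, Fintype.sum_prod_type, Finset.sum_mul, Finset.mul_sum]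
    calc _ = ∑ k, ∑ j, ∑ l, cc (j + s) j * (a (j + s) i k * b j r l) * y (k, l) :=
          Finset.sum_congr rfl fun k _ => Finset.sum_comm
      _ = ∑ j, ∑ k, ∑ l, cc (j + s) j * (a (j + s) i k * b j r l) * y (k, l) := Finset.sum_comm
      _ = ∑ j, ∑ l, ∑ k, cc (j + s) j * (a (j + s) i k * b j r l) * y (k, l) :=
          Finset.sum_congr rfl fun k _ => Finset.sum_comm
      _ = _ := by
          refine Finset.sum_congr rfl fun j _ => Finset.sum_congr rfl fun l _ =>
            Finset.sum_congr rfl fun k _ => ?_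
          ring
  · rw [hs, Fintype.sum_prod_type]
    simp only [Matrix.of_apply]

lemma block_vec (hp2 : p ≠ 2) {n m : ℕ} (a : ZMod p → Matrix (Fin n) (Fin n) ℂ)
    (b : ZMod p → Matrix (Fin m) (Fin m) ℂ) {α β : ℝ}
    (ha : ∀ i, ‖a i‖ ≤ α) (hb : ∀ i, ‖b i‖ ≤ β) (y : Fin n × Fin m → ℂ) :
    ∑ s : ZMod p, ∑ P : Fin n × Fin m, ‖∑ Q : Fin n × Fin m,
      (∑ j, cc (j + s) j * (a (j + s) P.1 Q.1 * b j P.2 Q.2)) * y Q‖ ^ 2
      ≤ 2 * p ^ 2 * Real.sqrt p * (α * β) ^ 2 * ∑ Q, ‖y Q‖ ^ 2 := by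
  have hα0 : 0 ≤ α := (norm_nonneg _).trans (ha 0)
  have hβ0 : 0 ≤ β := (norm_nonneg _).trans (hb 0)
  rcases hα0.eq_or_lt with hα | hα
  · have h0 : ∀ i, a i = 0 := fun i => norm_le_zero_iff.1 (hα ▸ ha i)
    simp only [h0, Matrix.zero_apply, zero_mul, mul_zero, Finset.sum_const_zero, norm_zero]
    rw [← hα]
    simp
  rcases hβ0.eq_or_lt with hβ | hβ
  · have h0 : ∀ i, b i = 0 := fun i => norm_le_zero_iff.1 (hβ ▸ hb i)
    simp only [h0, Matrix.zero_apply, zero_mul, mul_zero, Finset.sum_const_zero, norm_zero]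
    rw [← hβ]
    simp
  have h := block_vec1 hp2 (fun i => (α⁻¹ : ℂ) • a i) (fun i => (β⁻¹ : ℂ) • b i) (fun i => by
      rw [norm_smul, norm_inv, Complex.norm_real, Real.norm_eq_abs, abs_of_pos hα,
        inv_mul_le_iff₀ hα, mul_one]
      exact ha i) (fun i => by
      rw [norm_smul, norm_inv, Complex.norm_real, Real.norm_eq_abs, abs_of_pos hβ,
        inv_mul_le_iff₀ hβ, mul_one]
      exact hb i) y
  have e : ∀ s : ZMod p, ∀ P : Fin n × Fin m, ‖∑ Q : Fin n × Fin m,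
      (∑ j, cc (j + s) j * (((α⁻¹ : ℂ) • a (j + s)) P.1 Q.1 * ((β⁻¹ : ℂ) • b j) P.2 Q.2)) * y Q‖ ^ 2
      = ((α * β) ^ 2)⁻¹ * ‖∑ Q : Fin n × Fin m,
      (∑ j, cc (j + s) j * (a (j + s) P.1 Q.1 * b j P.2 Q.2)) * y Q‖ ^ 2 := by
    intro s P
    have e1 : ∑ Q : Fin n × Fin m,
      (∑ j, cc (j + s) j * (((α⁻¹ : ℂ) • a (j + s)) P.1 Q.1 * ((β⁻¹ : ℂ) • b j) P.2 Q.2)) * y Q
      = (((α * β)⁻¹ : ℝ) : ℂ) * ∑ Q : Fin n × Fin m,
      (∑ j, cc (j + s) j * (a (j + s) P.1 Q.1 * b j P.2 Q.2)) * y Q := by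
      rw [Finset.mul_sum]
      refine Finset.sum_congr rfl fun Q _ => ?_
      rw [← mul_assoc, Finset.mul_sum]
      congr 1
      refine Finset.sum_congr rfl fun j _ => ?_
      simp only [Matrix.smul_apply, smul_eq_mul]
      push_cast
      rw [mul_inv]
      ring
    rw [e1, norm_mul, Complex.norm_real, mul_pow, Real.norm_eq_abs, sq_abs, inv_pow]
  simp only [e] at h
  simp_rw [← Finset.mul_sum] at h
  have hpos : 0 < (α * β) ^ 2 := by positivity
  rw [inv_mul_le_iff₀ hpos] at h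
  refine h.trans (le_of_eq ?_)
  ring

end vec

section test

variable {A : Type} [NonUnitalCStarAlgebra A] [PartialOrder A] [StarOrderedRing A]
variable {p : ℕ} [Fact p.Prime]

/-- identification of index sets -/
def eqv (p : ℕ) [Fact p.Prime] : Fin p ≃ ZMod p :=
  Fintype.equivOfCardEq (by rw [Fintype.card_fin, ZMod.card])

/-- test matrices -/
def tm (γ : ZMod p → ZMod p → ℂ) (E : ZMod p → A) : CStarMatrix (Fin p) (Fin p) A :=
  CStarMatrix.ofMatrix fun i k => γ (eqv p i) (eqv p k) • E (eqv p i + eqv p k)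

lemma tm_apply (γ : ZMod p → ZMod p → ℂ) (E : ZMod p → A) (i k : Fin p) :
    tm γ E i k = γ (eqv p i) (eqv p k) • E (eqv p i + eqv p k) := rfl

lemma norm_tm_le (γ : ZMod p → ZMod p → ℂ) (hγ : ∀ i k, ‖γ i k‖ = 1) (E : ZMod p → A)
    (hE : ∀ i j, star (E i) * E j = if i = j then E i else 0) : ‖tm γ E‖ ≤ 1 := by
  set Q : CStarMatrix (Fin p) (Fin p) A := star (tm γ E) * tm γ E with hQ
  have hEs : ∀ i, star (E i) = E i := by
    intro i
    have h1 := hE i i
    rw [if_pos rfl] at h1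
    rw [← h1, star_mul, star_star]
  have hQa : ∀ k l, Q k l = if k = l then ∑ i, E i else 0 := by
    intro k l
    rw [hQ, CStarMatrix.mul_apply]
    have h1 : ∀ i : Fin p, star (tm γ E) k i * tm γ E i l
        = if k = l then E (eqv p i + eqv p k) else 0 := by
      intro i
      rw [CStarMatrix.star_apply, tm_apply, tm_apply, star_smul, smul_mul_smul_comm, hE]
      by_cases h : k = l
      · subst h
        rw [if_pos rfl, if_pos rfl, Complex.star_def, Complex.conj_mul', hγ]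
        simp
      · have : ¬ (eqv p i + eqv p k = eqv p i + eqv p l) := by
          intro h2
          exact h ((eqv p).injective (add_left_cancel h2))
        rw [if_neg this, if_neg h, smul_zero]
    simp_rw [h1]
    split_ifs with h
    · rw [Equiv.sum_comp (eqv p) (fun i => E (i + eqv p k))]
      exact Equiv.sum_comp (Equiv.addRight (eqv p k)) (fun i => E i)
    · simp
  have hEE : (∑ i, E i) * ∑ i, E i = ∑ i, E i := by
    rw [Finset.sum_mul_sum]
    refine Finset.sum_congr rfl fun i _ => ?_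
    rw [Finset.sum_eq_single i]
    · nth_rewrite 1 [← hEs i]
      rw [hE, if_pos rfl]
    · intro j _ hj
      nth_rewrite 1 [← hEs i]
      rw [hE, if_neg (Ne.symm hj)]
    · intro h
      exact absurd (Finset.mem_univ _) h
  have hQs : star Q = Q := by rw [hQ, star_mul, star_star]
  have hQQ : Q * Q = Q := by
    ext k l
    rw [CStarMatrix.mul_apply]
    rw [Finset.sum_eq_single k]
    · rw [hQa k k, if_pos rfl, hQa k l]
      split_ifs
      · exact hEE
      · simp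
    · intro i _ hi
      rw [hQa k i, if_neg (Ne.symm hi), zero_mul]
    · intro h
      exact absurd (Finset.mem_univ _) h
  have h1 : ‖Q‖ = ‖Q‖ * ‖Q‖ := by
    conv_lhs => rw [← hQQ]
    nth_rewrite 1 [← hQs]
    exact CStarRing.norm_star_mul_self
  have h2 : ‖Q‖ ≤ 1 := by
    by_contra h
    push Not at h
    nlinarith
  have h3 : ‖Q‖ = ‖tm γ E‖ * ‖tm γ E‖ := CStarRing.norm_star_mul_self
  nlinarith [norm_nonneg (tm γ E)]

end test

end Q89.JC
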