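import Pool.Agent.Q89.JC.Tr

/-!
# Cubic phases on `ZMod p`
-/

set_option autoImplicit false
set_option linter.unusedSectionVars false

open scoped Matrix Matrix.Norms.L2Operator ComplexOrder ComplexConjugate

noncomputable section

namespace Q89.JC

variable {N M : Type} [Fintype N] [DecidableEq N] [Fintype M] [DecidableEq M]

lemma norm_conj_le (B : Matrix M M ℂ) : ‖B.map conj‖ ≤ ‖B‖ := by
  rw [Matrix.l2_opNorm_def (B.map conj)]
  refine ContinuousLinearMap.opNorm_le_bound _ (norm_nonneg _) fun x => ?_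
  have h := Matrix.l2_opNorm_mulVec B ((WithLp.toLp 2 (fun i => conj (x i))) : EuclideanSpace ℂ M)
  have h1 : ‖((WithLp.toLp 2 (fun i => conj (x i))) : EuclideanSpace ℂ M)‖ = ‖x‖ := by
    rw [EuclideanSpace.norm_eq, EuclideanSpace.norm_eq]
    simp
  rw [h1] at h
  refine le_trans (le_of_eq ?_) h
  rw [EuclideanSpace.norm_eq, EuclideanSpace.norm_eq]
  congr 1
  refine Finset.sum_congr rfl fun i _ => ?_
  congr 1
  have e1 : ((LinearMap.toContinuousLinearMap (Matrix.toEuclideanLin (B.map conj))) x) i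
      = ∑ j, conj (B i j) * x j := by
    simp [Matrix.toLpLin_apply, Matrix.mulVec, dotProduct]
  have e2 : ((EuclideanSpace.equiv M ℂ).symm
      (B *ᵥ ((WithLp.toLp 2 (fun i => conj (x i))) : EuclideanSpace ℂ M))) i
      = ∑ j, B i j * conj (x j) := by
    simp [Matrix.mulVec, dotProduct]
  have e3 : (∑ j, conj (B i j) * x j) = conj (∑ j, B i j * conj (x j)) := by
    rw [map_sum]
    exact Finset.sum_congr rfl fun j _ => by simp
  exact (congrArg norm e1).trans ((congrArg norm e3).trans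
    ((RCLike.norm_conj _).trans (congrArg norm e2).symm))

lemma norm_transpose_le (B : Matrix M M ℂ) : ‖Bᵀ‖ ≤ ‖B‖ := by
  have h1 : Bᵀ = (Bᴴ).map conj := by
    ext i j
    simp
  rw [h1]
  exact (norm_conj_le _).trans (le_of_eq (Matrix.l2_opNorm_conjTranspose _))

section zmod

variable {p : ℕ} [Fact p.Prime]

/-- additive character -/
def ψ : AddChar (ZMod p) ℂ := ZMod.stdAddChar

lemma ψ_prim : (ψ : AddChar (ZMod p) ℂ).IsPrimitive := ZMod.isPrimitive_stdAddChar p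

lemma norm_ψ (x : ZMod p) : ‖ψ x‖ = 1 := AddChar.norm_apply _ _

lemma conj_ψ (x : ZMod p) : conj (ψ x) = ψ (-x) := (AddChar.map_neg_eq_conj _ _).symm

/-- the phases -/
def cc (i j : ZMod p) : ℂ := ψ (i * j ^ 2)

lemma norm_cc (i j : ZMod p) : ‖cc i j‖ = 1 := norm_ψ _

lemma parseval {t : ZMod p} (ht : t ≠ 0) (Z : ZMod p → ℂ) :
    ∑ m, ‖∑ j, ψ (t * m * j) * Z j‖ ^ 2 = p * ∑ j, ‖Z j‖ ^ 2 := by
  have h1 : ((∑ m, ‖∑ j, ψ (t * m * j) * Z j‖ ^ 2 : ℝ) : ℂ) = ((p * ∑ j, ‖Z j‖ ^ 2 : ℝ) : ℂ) := by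
    push_cast
    simp_rw [← Complex.conj_mul', map_sum, Finset.sum_mul_sum]
    have h2 : ∀ m l j : ZMod p, conj (ψ (t * m * l) * Z l) * (ψ (t * m * j) * Z j)
        = conj (Z l) * Z j * ψ (m * (t * (j - l))) := by
      intro m l j
      rw [map_mul, conj_ψ]
      have : m * (t * (j - l)) = -(t * m * l) + t * m * j := by ring
      rw [this, AddChar.map_add_eq_mul]
      ring
    simp_rw [h2]
    rw [Finset.sum_comm]
    have h3 : ∀ l : ZMod p, ∑ m, ∑ j, conj (Z l) * Z j * ψ (m * (t * (j - l)))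
        = p * (conj (Z l) * Z l) := by
      intro l
      rw [Finset.sum_comm]
      simp_rw [← Finset.mul_sum, AddChar.sum_mulShift _ ψ_prim]
      rw [Finset.sum_eq_single l]
      · simp [ZMod.card]
        ring
      · intro j _ hj
        have : t * (j - l) ≠ 0 := mul_ne_zero ht (sub_ne_zero.2 hj)
        simp [this]
      · intro h
        exact absurd (Finset.mem_univ _) h
    simp_rw [h3]
    rw [Finset.mul_sum]
  exact_mod_cast h1

lemma hK_ne {t : ZMod p} (ht : t ≠ 0) (X Z : ZMod p → ℂ) :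
    ‖∑ m, ∑ j, ψ (t * m * j) * X m * Z j‖
      ≤ Real.sqrt p / 2 * (∑ m, ‖X m‖ ^ 2 + ∑ j, ‖Z j‖ ^ 2) := by
  have hp : 0 < (p : ℝ) := by exact_mod_cast (Fact.out : p.Prime).pos
  set q : ℝ := Real.sqrt p with hq
  have hq0 : 0 < q := Real.sqrt_pos.2 hp
  have hq2 : q ^ 2 = p := Real.sq_sqrt hp.le
  have h1 : ∑ m, ∑ j, ψ (t * m * j) * X m * Z j = ∑ m, X m * ∑ j, ψ (t * m * j) * Z j := by
    refine Finset.sum_congr rfl fun m _ => ?_
    rw [Finset.mul_sum]
    exact Finset.sum_congr rfl fun j _ => by ring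
  rw [h1]
  refine (norm_sum_le _ _).trans ?_
  have h2 : ∀ m, ‖X m * ∑ j, ψ (t * m * j) * Z j‖
      ≤ q / 2 * ‖X m‖ ^ 2 + 1 / (2 * q) * ‖∑ j, ψ (t * m * j) * Z j‖ ^ 2 := by
    intro m
    rw [norm_mul]
    set u := ‖X m‖
    set v := ‖∑ j, ψ (t * m * j) * Z j‖
    have : q / 2 * u ^ 2 + 1 / (2 * q) * v ^ 2 - u * v = (q * u - v) ^ 2 / (2 * q) := by
      field_simp
      ring
    have h3 : 0 ≤ (q * u - v) ^ 2 / (2 * q) := by positivity
    linarith
  refine (Finset.sum_le_sum fun m _ => h2 m).trans (le_of_eq ?_)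
  rw [Finset.sum_add_distrib, ← Finset.mul_sum, ← Finset.mul_sum, parseval ht, ← hq2]
  field_simp

lemma hK_zero (K : ZMod p → ZMod p → ℂ) (hK : ∀ m j, ‖K m j‖ ≤ 1) (X Z : ZMod p → ℂ) :
    ‖∑ m, ∑ j, K m j * X m * Z j‖
      ≤ (p : ℝ) / 2 * (∑ m, ‖X m‖ ^ 2 + ∑ j, ‖Z j‖ ^ 2) := by
  have h1 : ‖∑ m, ∑ j, K m j * X m * Z j‖ ≤ ∑ m, ∑ j, (‖X m‖ ^ 2 / 2 + ‖Z j‖ ^ 2 / 2) := by
    refine (norm_sum_le _ _).trans (Finset.sum_le_sum fun m _ => ?_)
    refine (norm_sum_le _ _).trans (Finset.sum_le_sum fun j _ => ?_)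
    rw [norm_mul, norm_mul]
    have h2 : ‖K m j‖ * ‖X m‖ * ‖Z j‖ ≤ ‖X m‖ * ‖Z j‖ := by
      rw [mul_assoc]
      exact mul_le_of_le_one_left (by positivity) (hK m j)
    nlinarith [sq_nonneg (‖X m‖ - ‖Z j‖)]
  refine h1.trans (le_of_eq ?_)
  simp_rw [Finset.sum_add_distrib, Finset.sum_const, Finset.card_univ, ZMod.card, nsmul_eq_mul]
  rw [← Finset.mul_sum, ← Finset.sum_div, ← Finset.sum_div]
  ring

/-- The block estimate -/
theorem block (hp2 : p ≠ 2) (a : ZMod p → Matrix N N ℂ) (b : ZMod p → Matrix M M ℂ)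
    (ha : ∀ i, ‖a i‖ ≤ 1) (hb : ∀ i, ‖b i‖ ≤ 1) (Y : Matrix N M ℂ) :
    ∑ s, hs (∑ j, cc (j + s) j • (a (j + s) * Y * (b j)ᵀ)) ≤ 2 * p ^ 2 * Real.sqrt p * hs Y := by
  have hpp := (Fact.out : p.Prime)
  have hp : 1 ≤ (p : ℝ) := by exact_mod_cast hpp.one_lt.le
  have h2 : (2 : ZMod p) ≠ 0 := by
    intro h
    have : ((2 : ℕ) : ZMod p) = 0 := by exact_mod_cast h
    rw [ZMod.natCast_eq_zero_iff] at this
    exact hp2 ((Nat.prime_dvd_prime_iff_eq hpp Nat.prime_two).1 this)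
  set tr : ZMod p → ZMod p → ZMod p → ZMod p → ℂ := fun i j i' j' =>
    conj (cc i j) * cc i' j' * ((a i * Y * (b j)ᵀ)ᴴ * (a i' * Y * (b j')ᵀ)).trace with htr
  have h3 : ((∑ s, hs (∑ j, cc (j + s) j • (a (j + s) * Y * (b j)ᵀ)) : ℝ) : ℂ)
      = ∑ δ, ∑ m, ∑ j, tr m j (m + δ) (j + δ) := by
    push_cast
    have e1 : ∀ s : ZMod p, ((hs (∑ j, cc (j + s) j • (a (j + s) * Y * (b j)ᵀ)) : ℝ) : ℂ)
        = ∑ j, ∑ l, tr (j + s) j (l + s) l := by
      intro s
      rw [← trace_hs, Matrix.conjTranspose_sum, Matrix.sum_mul, Matrix.trace_sum]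
      refine Finset.sum_congr rfl fun j _ => ?_
      rw [Matrix.mul_sum, Matrix.trace_sum]
      refine Finset.sum_congr rfl fun l _ => ?_
      rw [htr]
      simp only [Matrix.conjTranspose_smul, Matrix.smul_mul, Matrix.mul_smul, Matrix.trace_smul,
        smul_eq_mul, Complex.star_def]
      ring
    simp_rw [e1]
    calc ∑ s, ∑ j, ∑ l, tr (j + s) j (l + s) l
        = ∑ s, ∑ j, ∑ δ, tr (j + s) j (j + s + δ) (j + δ) := by
          refine Finset.sum_congr rfl fun s _ => Finset.sum_congr rfl fun j _ => ?_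
          rw [← Equiv.sum_comp (Equiv.addLeft j)]
          refine Finset.sum_congr rfl fun δ _ => ?_
          simp only [Equiv.coe_addLeft]
          rw [show j + s + δ = j + δ + s by ring]
      _ = ∑ j, ∑ s, ∑ δ, tr (j + s) j (j + s + δ) (j + δ) := Finset.sum_comm
      _ = ∑ j, ∑ m, ∑ δ, tr m j (m + δ) (j + δ) := by
          refine Finset.sum_congr rfl fun j _ => ?_
          exact Equiv.sum_comp (Equiv.addLeft j) (fun m => ∑ δ, tr m j (m + δ) (j + δ))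
      _ = ∑ j, ∑ δ, ∑ m, tr m j (m + δ) (j + δ) :=
          Finset.sum_congr rfl fun j _ => Finset.sum_comm
      _ = ∑ δ, ∑ j, ∑ m, tr m j (m + δ) (j + δ) := Finset.sum_comm
      _ = _ := Finset.sum_congr rfl fun δ _ => Finset.sum_comm
  have h4 : ∀ δ : ZMod p, ‖∑ m, ∑ j, tr m j (m + δ) (j + δ)‖
      ≤ (if δ = 0 then (p : ℝ) else Real.sqrt p) * p * hs Y := by
    intro δ
    have e1 : ∑ m, ∑ j, tr m j (m + δ) (j + δ)
        = ∑ m, ∑ j, ψ (2 * δ * m * j) * (Yᴴ * (ψ (δ ^ 2 * m) • ((a m)ᴴ * a (m + δ))) * Y *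
          (ψ (δ * (j + δ) ^ 2) • ((b (j + δ))ᵀ * ((b j)ᵀ)ᴴ))).trace := by
      refine Finset.sum_congr rfl fun m _ => Finset.sum_congr rfl fun j _ => ?_
      have e2 : ((a m * Y * (b j)ᵀ)ᴴ * (a (m + δ) * Y * (b (j + δ))ᵀ)).trace
          = (Yᴴ * ((a m)ᴴ * a (m + δ)) * Y * ((b (j + δ))ᵀ * ((b j)ᵀ)ᴴ)).trace := by
        have e3 : (a m * Y * (b j)ᵀ)ᴴ * (a (m + δ) * Y * (b (j + δ))ᵀ)
            = ((b j)ᵀ)ᴴ * (Yᴴ * (a m)ᴴ * a (m + δ) * Y * (b (j + δ))ᵀ) := by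
          simp only [Matrix.conjTranspose_mul, Matrix.mul_assoc]
        rw [e3, Matrix.trace_mul_comm]
        simp only [Matrix.mul_assoc]
      have e4 : conj (cc m j) * cc (m + δ) (j + δ)
          = ψ (2 * δ * m * j) * ψ (δ ^ 2 * m) * ψ (δ * (j + δ) ^ 2) := by
        rw [cc, cc, conj_ψ, ← AddChar.map_add_eq_mul, ← AddChar.map_add_eq_mul,
          ← AddChar.map_add_eq_mul]
        congr 1
        ring
      rw [htr]
      simp only [Matrix.smul_mul, Matrix.mul_smul, Matrix.trace_smul, smul_eq_mul]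
      rw [e2, e4]
      ring
    rw [e1]
    have hA : ∀ m, ‖ψ (δ ^ 2 * m) • ((a m)ᴴ * a (m + δ))‖ ≤ 1 := by
      intro m
      rw [norm_smul, norm_ψ, one_mul]
      refine (Matrix.l2_opNorm_mul _ _).trans ?_
      rw [Matrix.l2_opNorm_conjTranspose]
      exact mul_le_one₀ (ha _) (norm_nonneg _) (ha _)
    have hB : ∀ j, ‖ψ (δ * (j + δ) ^ 2) • ((b (j + δ))ᵀ * ((b j)ᵀ)ᴴ)‖ ≤ 1 := by
      intro j
      rw [norm_smul, norm_ψ, one_mul]
      refine (Matrix.l2_opNorm_mul _ _).trans ?_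
      rw [Matrix.l2_opNorm_conjTranspose]
      exact mul_le_one₀ ((norm_transpose_le _).trans (hb _)) (norm_nonneg _)
        ((norm_transpose_le _).trans (hb _))
    have hk := key (F := ZMod p) (fun m j => ψ (2 * δ * m * j))
      (if δ = 0 then (p : ℝ) else Real.sqrt p) ?_ _ _ hA hB (by split_ifs <;> positivity) Y
    · rwa [ZMod.card] at hk
    · intro X Z
      split_ifs with h
      · exact hK_zero _ (fun m j => (norm_ψ _).le) X Z
      · exact hK_ne (mul_ne_zero h2 h) X Z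
  have h5 : ∑ s, hs (∑ j, cc (j + s) j • (a (j + s) * Y * (b j)ᵀ))
      ≤ ∑ δ : ZMod p, (if δ = 0 then (p : ℝ) else Real.sqrt p) * p * hs Y := by
    have h6 := congrArg norm h3
    rw [Complex.norm_real, Real.norm_eq_abs] at h6
    refine (le_abs_self _).trans ?_
    rw [h6]
    exact (norm_sum_le _ _).trans (Finset.sum_le_sum fun δ _ => h4 δ)
  refine h5.trans ?_
  have h7 : ∑ δ : ZMod p, (if δ = 0 then (p : ℝ) else Real.sqrt p) * p * hs Y
      ≤ ∑ δ : ZMod p, ((if δ = 0 then (p : ℝ) else 0) + Real.sqrt p) * p * hs Y := by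
    refine Finset.sum_le_sum fun δ _ => ?_
    have : (if δ = 0 then (p : ℝ) else Real.sqrt p) ≤ (if δ = 0 then (p : ℝ) else 0) + Real.sqrt p := by
      split_ifs
      · linarith [Real.sqrt_nonneg (p : ℝ)]
      · linarith
    have h8 := hs_nonneg Y
    gcongr
  refine h7.trans ?_
  rw [← Finset.sum_mul, ← Finset.sum_mul, Finset.sum_add_distrib]
  simp only [Finset.sum_ite_eq', Finset.mem_univ, if_true, Finset.sum_const, Finset.card_univ,
    ZMod.card, nsmul_eq_mul]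
  have h9 : 1 ≤ Real.sqrt p := by
    rw [Real.one_le_sqrt]
    exact hp
  have h10 := hs_nonneg Y
  have : ((p : ℝ) + p * Real.sqrt p) * p ≤ 2 * p ^ 2 * Real.sqrt p := by nlinarith
  exact mul_le_mul_of_nonneg_right this h10

end zmod

end Q89.JC
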