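import Pool.Agent.Q89.JC.Sum

/-!
# The concrete model: bounded functions on `ℕ × ℕ`
-/

set_option autoImplicit false
set_option linter.unusedSectionVars false
set_option linter.unusedVariables false

open scoped ComplexConjugate InnerProductSpace Topology BoundedContinuousFunction

noncomputable section

namespace Q89.JC

/-- bounded functions -/
abbrev AA : Type := (ℕ × ℕ) →ᵇ ℂ

/-- evaluation -/
def evt (t : ℕ × ℕ) : AA →⋆ₙₐ[ℂ] ℂ where
  toFun f := f t
  map_smul' c f := rfl
  map_zero' := rfl
  map_add' f g := rfl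
  map_mul' f g := rfl
  map_star' f := rfl

/-- indicator -/
def ind (t : ℕ × ℕ) : AA :=
  BoundedContinuousFunction.ofNormedAddCommGroupDiscrete (fun s => if s = t then 1 else 0) 1
    (fun s => by split_ifs <;> simp)

lemma evt_ind (t s : ℕ × ℕ) : evt t (ind s) = if t = s then 1 else 0 := rfl

/-- the Hilbert space -/
abbrev HH : Type := lp (fun _ : ℕ => ℂ) 2

/-- the basis -/
def bas : HilbertBasis ℕ ℂ HH := HilbertBasis.ofRepr (LinearIsometryEquiv.refl ℂ HH)

/-- the primes -/
def PP (k : ℕ) : ℕ := Classical.choose (Nat.exists_infinite_primes (64 ^ k + 2))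

instance (k : ℕ) : Fact (PP k).Prime :=
  ⟨(Classical.choose_spec (Nat.exists_infinite_primes (64 ^ k + 2))).2⟩

lemma PP_ge (k : ℕ) : 64 ^ k + 2 ≤ PP k :=
  (Classical.choose_spec (Nat.exists_infinite_primes (64 ^ k + 2))).1

lemma PP_ne (k : ℕ) : PP k ≠ 2 := by
  have := PP_ge k
  have h2 : 0 < 64 ^ k := by positivity
  omega

lemma OP_ind (k : ℕ) : OP (fun i : ZMod (PP k) => ind (k, i.val)) := by
  intro i j
  ext t
  change conj (if t = (k, i.val) then (1 : ℂ) else 0) * (if t = (k, j.val) then (1 : ℂ) else 0) = _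
  by_cases h : i = j
  · subst h
    rw [if_pos rfl]
    change _ = (if t = (k, i.val) then (1 : ℂ) else 0)
    split_ifs <;> simp
  · rw [if_neg h]
    change _ = (0 : ℂ)
    by_cases h1 : t = (k, i.val)
    · have h2 : ¬ (t = (k, j.val)) := by
        rw [h1]
        intro h3
        exact h (ZMod.val_injective _ (Prod.mk.inj h3).2)
      rw [if_neg h2, mul_zero]
    · rw [if_neg h1]
      simp

end Q89.JC
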