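import Pool.Agent.Q89.JC.Blk

/-!
# The infinite sum of block maps
-/

set_option autoImplicit false
set_option linter.unusedSectionVars false

open scoped ComplexConjugate InnerProductSpace Topology Matrix.Norms.L2Operator

noncomputable section

namespace Q89.JC

section one

variable {A B H : Type} [NonUnitalCStarAlgebra A] [PartialOrder A] [StarOrderedRing A]
  [NonUnitalCStarAlgebra B] [PartialOrder B] [StarOrderedRing B]
  [NormedAddCommGroup H] [InnerProductSpace ℂ H]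
variable {p : ℕ} [Fact p.Prime]

/-- the square of the jcb bound -/
def DD (p : ℕ) : ℝ := 2 * p ^ 2 * Real.sqrt p

lemma DD_pos : 0 < DD p := by
  have hp : 0 < (p : ℝ) := by exact_mod_cast (Fact.out : p.Prime).pos
  unfold DD
  positivity

lemma norm_blk_le (hp2 : p ≠ 2) (χ : ZMod p → (A →⋆ₙₐ[ℂ] ℂ)) (η : ZMod p → (B →⋆ₙₐ[ℂ] ℂ))
    {e : ZMod p → H} (he : Orthonormal ℂ e) {e0 : H} (he0 : ‖e0‖ ≤ 1) (f : A) (g : B) :
    ‖blk χ η e e0 f g‖ ≤ Real.sqrt (DD p) * (‖f‖ * ‖g‖) := by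
  refine ContinuousLinearMap.opNorm_le_bound _ (by positivity) fun x => ?_
  have hn : ∀ c : ℂ, ‖(Matrix.diagonal (fun _ : Fin 1 => c))‖ = ‖c‖ := by
    intro c
    rw [Matrix.l2_opNorm_diagonal]
    simp
  have h := block_vec hp2 (n := 1) (m := 1) (fun i => Matrix.diagonal (fun _ => χ i f))
    (fun i => Matrix.diagonal (fun _ => η i g)) (α := ‖f‖) (β := ‖g‖)
    (fun i => by rw [hn]; exact norm_char_le _ _) (fun i => by rw [hn]; exact norm_char_le _ _)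
    (fun _ => ⟪e0, x⟫_ℂ)
  have h1 : ‖blk χ η e e0 f g x‖ ^ 2 ≤ (Real.sqrt (DD p) * (‖f‖ * ‖g‖) * ‖x‖) ^ 2 := by
    rw [blk_apply, norm_sum_orth he]
    have h2 : ∑ s : ZMod p, ‖(∑ j, cc (j + s) j * (χ (j + s) f * η j g)) * ⟪e0, x⟫_ℂ‖ ^ 2
        ≤ DD p * (‖f‖ * ‖g‖) ^ 2 * ‖⟪e0, x⟫_ℂ‖ ^ 2 := by
      refine le_trans (le_of_eq ?_) (h.trans (le_of_eq ?_))
      · refine Finset.sum_congr rfl fun s _ => ?_
        simp only [Fintype.sum_prod_type, Finset.univ_unique, Finset.sum_singleton,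
          Matrix.diagonal_apply_eq]
      · simp [DD]
    refine h2.trans ?_
    have h3 : ‖⟪e0, x⟫_ℂ‖ ≤ ‖x‖ :=
      (norm_inner_le_norm _ _).trans (mul_le_of_le_one_left (norm_nonneg _) he0)
    have h4 : ‖⟪e0, x⟫_ℂ‖ ^ 2 ≤ ‖x‖ ^ 2 := pow_le_pow_left₀ (norm_nonneg _) h3 2
    have h5 := (DD_pos (p := p)).le
    calc _ ≤ DD p * (‖f‖ * ‖g‖) ^ 2 * ‖x‖ ^ 2 := by gcongr
      _ = Real.sqrt (DD p) ^ 2 * (‖f‖ * ‖g‖) ^ 2 * ‖x‖ ^ 2 := by rw [Real.sq_sqrt h5]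
      _ = _ := by ring
  exact (pow_le_pow_iff_left₀ (norm_nonneg _) (by positivity) two_ne_zero).1 h1

lemma blk_add_left (χ : ZMod p → (A →⋆ₙₐ[ℂ] ℂ)) (η : ZMod p → (B →⋆ₙₐ[ℂ] ℂ)) (e : ZMod p → H)
    (e0 : H) (f f' : A) (g : B) :
    blk χ η e e0 (f + f') g = blk χ η e e0 f g + blk χ η e e0 f' g := by
  simp only [blk, map_add, add_mul, mul_add, Finset.sum_add_distrib, add_smul]

lemma blk_add_right (χ : ZMod p → (A →⋆ₙₐ[ℂ] ℂ)) (η : ZMod p → (B →⋆ₙₐ[ℂ] ℂ)) (e : ZMod p → H)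
    (e0 : H) (f : A) (g g' : B) :
    blk χ η e e0 f (g + g') = blk χ η e e0 f g + blk χ η e e0 f g' := by
  simp only [blk, map_add, mul_add, Finset.sum_add_distrib, add_smul]

lemma blk_smul_left (χ : ZMod p → (A →⋆ₙₐ[ℂ] ℂ)) (η : ZMod p → (B →⋆ₙₐ[ℂ] ℂ)) (e : ZMod p → H)
    (e0 : H) (c : ℂ) (f : A) (g : B) :
    blk χ η e e0 (c • f) g = c • blk χ η e e0 f g := by
  simp only [blk, map_smul, Finset.smul_sum, smul_smul, Finset.mul_sum, smul_eq_mul]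
  refine Finset.sum_congr rfl fun s _ => ?_
  congr 1
  exact Finset.sum_congr rfl fun j _ => by ring

lemma blk_smul_right (χ : ZMod p → (A →⋆ₙₐ[ℂ] ℂ)) (η : ZMod p → (B →⋆ₙₐ[ℂ] ℂ)) (e : ZMod p → H)
    (e0 : H) (c : ℂ) (f : A) (g : B) :
    blk χ η e e0 f (c • g) = c • blk χ η e e0 f g := by
  simp only [blk, map_smul, Finset.smul_sum, smul_smul, Finset.mul_sum, smul_eq_mul]
  refine Finset.sum_congr rfl fun s _ => ?_
  congr 1
  exact Finset.sum_congr rfl fun j _ => by ring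

lemma blk_eq_zero (χ : ZMod p → (A →⋆ₙₐ[ℂ] ℂ)) (η : ZMod p → (B →⋆ₙₐ[ℂ] ℂ)) (e : ZMod p → H)
    (e0 : H) (f : A) (g : B) (h : ∀ i, χ i f = 0) : blk χ η e e0 f g = 0 := by
  simp [blk, h]

lemma blk_EE (χ : ZMod p → (A →⋆ₙₐ[ℂ] ℂ)) (η : ZMod p → (B →⋆ₙₐ[ℂ] ℂ)) (e : ZMod p → H)
    (e0 : H) (he0 : ‖e0‖ = 1) {E : ZMod p → A} {F : ZMod p → B}
    (hE : ∀ i j, χ i (E j) = if i = j then 1 else 0)
    (hF : ∀ i j, η i (F j) = if i = j then 1 else 0) (m k : ZMod p) :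
    blk χ η e e0 (E m) (F k) e0 = cc m k • e (m - k) := by
  rw [blk_apply]
  have h1 : ⟪e0, e0⟫_ℂ = 1 := by
    rw [inner_self_eq_norm_sq_to_K, he0]
    simp
  have h2 : ∀ s : ZMod p, ∑ j, cc (j + s) j * (χ (j + s) (E m) * η j (F k))
      = if s = m - k then cc m k else 0 := by
    intro s
    rw [Finset.sum_eq_single k]
    · rw [hE, hF, if_pos rfl, mul_one]
      by_cases h : s = m - k
      · have h' : k + s = m := by rw [h]; ring
        rw [if_pos h, h', if_pos rfl, mul_one]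
      · have h' : ¬ (k + s = m) := fun h'' => h (by rw [← h'']; ring)
        rw [if_neg h, if_neg h', mul_zero]
    · intro j _ hj
      rw [hF, if_neg hj]
      simp
    · intro h
      exact absurd (Finset.mem_univ _) h
  simp_rw [h2, h1, mul_one]
  rw [Finset.sum_eq_single (m - k)]
  · rw [if_pos rfl]
  · intro s _ hs
    rw [if_neg hs, zero_smul]
  · intro h
    exact absurd (Finset.mem_univ _) h

end one

section sum

variable {A B H : Type} [NonUnitalCStarAlgebra A] [PartialOrder A] [StarOrderedRing A]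
  [NonUnitalCStarAlgebra B] [PartialOrder B] [StarOrderedRing B]
  [NormedAddCommGroup H] [InnerProductSpace ℂ H] [CompleteSpace H]
variable (P : ℕ → ℕ) [hP : ∀ k, Fact (P k).Prime]

/-- weights -/
def lam (k : ℕ) : ℝ := (1 / 2) ^ k / Real.sqrt (DD (P k))

lemma lam_nonneg (k : ℕ) : 0 ≤ lam P k := by unfold lam; positivity

lemma lam_mul (k : ℕ) : lam P k * Real.sqrt (DD (P k)) = (1 / 2) ^ k := by
  have : 0 < Real.sqrt (DD (P k)) := Real.sqrt_pos.2 DD_pos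
  unfold lam
  field_simp

variable (χ : ∀ k, ZMod (P k) → (A →⋆ₙₐ[ℂ] ℂ)) (η : ∀ k, ZMod (P k) → (B →⋆ₙₐ[ℂ] ℂ))
  (e : ∀ k, ZMod (P k) → H) (e0 : H)

/-- weighted block -/
def wb (k : ℕ) (f : A) (g : B) : H →L[ℂ] H := (lam P k : ℂ) • blk (χ k) (η k) (e k) e0 f g

variable {P} {e e0}

lemma norm_wb_le (hP2 : ∀ k, P k ≠ 2) (he : ∀ k, Orthonormal ℂ (e k)) (he0 : ‖e0‖ = 1)
    (f : A) (g : B) (k : ℕ) : ‖wb P χ η e e0 k f g‖ ≤ (1 / 2) ^ k * (‖f‖ * ‖g‖) := by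
  rw [wb, norm_smul, Complex.norm_real, Real.norm_eq_abs, abs_of_nonneg (lam_nonneg P k),
    ← lam_mul P k, mul_assoc]
  exact mul_le_mul_of_nonneg_left (norm_blk_le (hP2 k) _ _ (he k) he0.le f g) (lam_nonneg P k)

lemma summable_wb (hP2 : ∀ k, P k ≠ 2) (he : ∀ k, Orthonormal ℂ (e k)) (he0 : ‖e0‖ = 1)
    (f : A) (g : B) : Summable (fun k => wb P χ η e e0 k f g) :=
  Summable.of_norm_bounded (g := fun k => (1 / 2 : ℝ) ^ k * (‖f‖ * ‖g‖))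
    (summable_geometric_two.mul_right _) (norm_wb_le χ η hP2 he he0 f g)

/-- the total map -/
def tot (hP2 : ∀ k, P k ≠ 2) (he : ∀ k, Orthonormal ℂ (e k)) (he0 : ‖e0‖ = 1) :
    A →ₗ[ℂ] B →ₗ[ℂ] (H →L[ℂ] H) :=
  LinearMap.mk₂ ℂ (fun f g => ∑' k, wb P χ η e e0 k f g)
    (fun f f' g => by
      rw [← (summable_wb χ η hP2 he he0 f g).tsum_add (summable_wb χ η hP2 he he0 f' g)]
      congr 1
      ext1 k
      rw [wb, wb, wb, blk_add_left, smul_add])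
    (fun c f g => by
      rw [← (summable_wb χ η hP2 he he0 f g).tsum_const_smul c]
      congr 1
      ext1 k
      rw [wb, wb, blk_smul_left, smul_comm])
    (fun f g g' => by
      rw [← (summable_wb χ η hP2 he he0 f g).tsum_add (summable_wb χ η hP2 he he0 f g')]
      congr 1
      ext1 k
      rw [wb, wb, wb, blk_add_right, smul_add])
    (fun c f g => by
      rw [← (summable_wb χ η hP2 he he0 f g).tsum_const_smul c]
      congr 1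
      ext1 k
      rw [wb, wb, blk_smul_right, smul_comm])

lemma tot_apply (hP2 : ∀ k, P k ≠ 2) (he : ∀ k, Orthonormal ℂ (e k)) (he0 : ‖e0‖ = 1)
    (f : A) (g : B) : tot χ η hP2 he he0 f g = ∑' k, wb P χ η e e0 k f g := rfl

lemma hasSum_tot (hP2 : ∀ k, P k ≠ 2) (he : ∀ k, Orthonormal ℂ (e k)) (he0 : ‖e0‖ = 1)
    (f : A) (g : B) (x : H) :
    HasSum (fun k => wb P χ η e e0 k f g x) (tot χ η hP2 he he0 f g x) := by
  have h := (summable_wb χ η hP2 he he0 f g).hasSum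
  exact h.mapL (ContinuousLinearMap.apply ℂ H x)

theorem tot_jcb (hP2 : ∀ k, P k ≠ 2) (he : ∀ k, Orthonormal ℂ (e k)) (he0 : ‖e0‖ = 1) {n m : ℕ}
    (a : CStarMatrix (Fin n) (Fin n) A) (b : CStarMatrix (Fin m) (Fin m) B)
    (x : Fin n × Fin m → H) :
    ∑ p : Fin n × Fin m, ‖∑ q : Fin n × Fin m, tot χ η hP2 he he0 (a p.1 q.1) (b p.2 q.2) (x q)‖ ^ 2
            ≤ (2 * ‖a‖ * ‖b‖) ^ 2 * ∑ q : Fin n × Fin m, ‖x q‖ ^ 2 := by
  set R : ℝ := Real.sqrt (∑ q : Fin n × Fin m, ‖x q‖ ^ 2) with hR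
  have hR0 : 0 ≤ R := Real.sqrt_nonneg _
  have hR2 : R ^ 2 = ∑ q : Fin n × Fin m, ‖x q‖ ^ 2 :=
    Real.sq_sqrt (Finset.sum_nonneg fun _ _ => sq_nonneg _)
  rw [← hR2, ← mul_pow]
  set V : ℕ → Fin n × Fin m → H := fun k p => ∑ q : Fin n × Fin m,
    wb P χ η e e0 k (a p.1 q.1) (b p.2 q.2) (x q) with hV
  have hVsum : ∀ p : Fin n × Fin m, HasSum (fun k => V k p)
      (∑ q : Fin n × Fin m, tot χ η hP2 he he0 (a p.1 q.1) (b p.2 q.2) (x q)) := by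
    intro p
    exact hasSum_sum fun q _ => hasSum_tot χ η hP2 he he0 _ _ _
  have hlim : Filter.Tendsto (fun S : Finset ℕ => ∑ p : Fin n × Fin m, ‖∑ k ∈ S, V k p‖ ^ 2)
      Filter.atTop (𝓝 (∑ p : Fin n × Fin m,
        ‖∑ q : Fin n × Fin m, tot χ η hP2 he he0 (a p.1 q.1) (b p.2 q.2) (x q)‖ ^ 2)) := by
    refine tendsto_finsetSum _ fun p _ => ?_
    exact ((hVsum p).norm.pow 2)
  refine le_of_tendsto' hlim fun S => ?_
  have hk : ∀ k, ‖(WithLp.toLp 2 (V k) : PiLp 2 (fun _ : Fin n × Fin m => H))‖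
      ≤ (1 / 2) ^ k * (‖a‖ * ‖b‖ * R) := by
    intro k
    refine (pow_le_pow_iff_left₀ (norm_nonneg _) (by positivity) two_ne_zero).1 ?_
    rw [PiLp.norm_sq_eq_of_L2]
    have h1 := blk_jcb (hP2 k) (χ k) (η k) (he k) he0.le a b x
    have h2 : ∀ p : Fin n × Fin m, V k p = (lam P k : ℂ) •
        ∑ q : Fin n × Fin m, blk (χ k) (η k) (e k) e0 (a p.1 q.1) (b p.2 q.2) (x q) := by
      intro p
      rw [hV, Finset.smul_sum]
      rfl
    have h3 : ∑ p : Fin n × Fin m, ‖V k p‖ ^ 2 = lam P k ^ 2 * ∑ p : Fin n × Fin m,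
        ‖∑ q : Fin n × Fin m, blk (χ k) (η k) (e k) e0 (a p.1 q.1) (b p.2 q.2) (x q)‖ ^ 2 := by
      rw [Finset.mul_sum]
      refine Finset.sum_congr rfl fun p _ => ?_
      rw [h2, norm_smul, mul_pow, Complex.norm_real, Real.norm_eq_abs, sq_abs]
    change ∑ p : Fin n × Fin m, ‖V k p‖ ^ 2 ≤ _
    rw [h3]
    refine (mul_le_mul_of_nonneg_left h1 (sq_nonneg _)).trans (le_of_eq ?_)
    have h4 : lam P k ^ 2 * DD (P k) = ((1 / 2) ^ k) ^ 2 := by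
      rw [← lam_mul P k, mul_pow, Real.sq_sqrt DD_pos.le]
    rw [← hR2]
    calc lam P k ^ 2 * (2 * (P k : ℝ) ^ 2 * Real.sqrt (P k) * (‖a‖ * ‖b‖) ^ 2 * R ^ 2)
        = (lam P k ^ 2 * DD (P k)) * (‖a‖ * ‖b‖ * R) ^ 2 := by unfold DD; ring
      _ = _ := by rw [h4]; ring
  have hS : ∑ p : Fin n × Fin m, ‖∑ k ∈ S, V k p‖ ^ 2
      = ‖∑ k ∈ S, (WithLp.toLp 2 (V k) : PiLp 2 (fun _ : Fin n × Fin m => H))‖ ^ 2 := by
    rw [PiLp.norm_sq_eq_of_L2]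
    refine Finset.sum_congr rfl fun p _ => ?_
    simp
  rw [hS]
  refine pow_le_pow_left₀ (norm_nonneg _) ?_ 2
  calc ‖∑ k ∈ S, (WithLp.toLp 2 (V k) : PiLp 2 (fun _ : Fin n × Fin m => H))‖
      ≤ ∑ k ∈ S, (1 / 2) ^ k * (‖a‖ * ‖b‖ * R) :=
        (norm_sum_le _ _).trans (Finset.sum_le_sum fun k _ => hk k)
    _ = (∑ k ∈ S, (1 / 2) ^ k) * (‖a‖ * ‖b‖ * R) := by rw [Finset.sum_mul]
    _ ≤ 2 * (‖a‖ * ‖b‖ * R) := by
        refine mul_le_mul_of_nonneg_right ?_ (by positivity)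
        have := summable_geometric_two.sum_le_tsum S (fun k _ => by positivity)
        rwa [tsum_geometric_two] at this
    _ = 2 * ‖a‖ * ‖b‖ * R := by ring

theorem no_dec (hP2 : ∀ k, P k ≠ 2) (hP8 : ∀ k, 64 ^ k ≤ P k)
    (he : ∀ k, Orthonormal ℂ (e k)) (he0 : ‖e0‖ = 1)
    {E : ∀ k, ZMod (P k) → A} {F : ∀ k, ZMod (P k) → B} (hE : ∀ k, OP (E k)) (hF : ∀ k, OP (F k))
    (hE1 : ∀ k i j, χ k i (E k j) = if i = j then 1 else 0)
    (hE0 : ∀ k l, k ≠ l → ∀ i j, χ k i (E l j) = 0)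
    (hF1 : ∀ k i j, η k i (F k j) = if i = j then 1 else 0)
    (φ₁ : A →ₗ[ℂ] B →ₗ[ℂ] (H →L[ℂ] H))
    (φ₂ : B →ₗ[ℂ] A →ₗ[ℂ] (H →L[ℂ] H)) (C₁ C₂ : ℝ)
    (hC₁ : ∀ (n : ℕ) (a : CStarMatrix (Fin n) (Fin n) A)
            (b : CStarMatrix (Fin n) (Fin n) B) (x : Fin n → H),
            ∑ i : Fin n, ‖∑ j : Fin n, ∑ k : Fin n, φ₁ (a i k) (b k j) (x j)‖ ^ 2
              ≤ (C₁ * ‖a‖ * ‖b‖) ^ 2 * ∑ j : Fin n, ‖x j‖ ^ 2)
    (hC₂ : ∀ (n : ℕ) (b : CStarMatrix (Fin n) (Fin n) B)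
            (a : CStarMatrix (Fin n) (Fin n) A) (x : Fin n → H),
            ∑ i : Fin n, ‖∑ j : Fin n, ∑ k : Fin n, φ₂ (b i k) (a k j) (x j)‖ ^ 2
              ≤ (C₂ * ‖b‖ * ‖a‖) ^ 2 * ∑ j : Fin n, ‖x j‖ ^ 2)
    (hφ : ∀ (a : A) (b : B), tot χ η hP2 he he0 a b = φ₁ a b + φ₂ b a) : False := by
  have h1 : ∀ k, (2 : ℝ) ^ k / 2 ≤ 2 * C₁ ^ 2 + 2 * C₂ ^ 2 := by
    intro k
    have h2 := obstruction (tot χ η hP2 he he0) φ₁ φ₂ C₁ C₂ hC₁ hC₂ hφ (hE k) (hF k) (e k)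
      (he k).1 e0 he0.le (lam P k) ?_
    · refine le_trans ?_ h2
      have hp : 0 < (P k : ℝ) := by exact_mod_cast (hP k).out.pos
      have h4 : lam P k ^ 2 * DD (P k) = ((1 / 2) ^ k) ^ 2 := by
        rw [← lam_mul P k, mul_pow, Real.sq_sqrt DD_pos.le]
      set q := Real.sqrt (P k) with hq
      have hq0 : 0 < q := Real.sqrt_pos.2 hp
      have hq2 : q ^ 2 = P k := Real.sq_sqrt hp.le
      have h5 : (8 : ℝ) ^ k ≤ q := by
        rw [hq]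
        refine Real.le_sqrt_of_sq_le ?_
        rw [← pow_mul, mul_comm, pow_mul]
        have := hP8 k
        norm_num
        exact_mod_cast this
      have h6 : lam P k ^ 2 * (P k : ℝ) ^ 3 = ((1 / 2) ^ k) ^ 2 * q / 2 := by
        rw [← h4]
        unfold DD
        rw [← hq]
        have : (P k : ℝ) ^ 3 = (P k : ℝ) ^ 2 * q ^ 2 := by rw [hq2]; ring
        rw [this]
        ring
      rw [h6]
      have h7 : (2 : ℝ) ^ k = ((1 / 2) ^ k) ^ 2 * 8 ^ k := by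
        rw [← pow_mul, mul_comm k 2, pow_mul, ← mul_pow]
        norm_num
      rw [h7]
      have : 0 ≤ (((1 : ℝ) / 2) ^ k) ^ 2 := by positivity
      nlinarith
    · intro m j
      rw [tot_apply, tsum_eq_single k]
      · rw [wb, smul_apply, blk_EE (χ k) (η k) (e k) e0 he0 (hE1 k) (hF1 k), smul_smul]
      · intro l hl
        rw [wb, blk_eq_zero _ _ _ _ _ _ (fun i => hE0 l k hl i m), smul_zero]
  obtain ⟨k, hk⟩ := pow_unbounded_of_one_lt (2 * (2 * C₁ ^ 2 + 2 * C₂ ^ 2)) (one_lt_two (α := ℝ))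
  have := h1 k
  linarith

end sum

end Q89.JC
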