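import Mathlib

/-!
# A trace inequality for bilinear forms `(A, B) ↦ Tr (Yᴴ A Y B)`
-/

set_option autoImplicit false
set_option linter.unusedSectionVars false

open scoped Matrix Matrix.Norms.L2Operator ComplexOrder

noncomputable section

namespace Q89.JC

variable {N M : Type} [Fintype N] [DecidableEq N] [Fintype M] [DecidableEq M]

lemma col_le (A : Matrix N M ℂ) (hA : ‖A‖ ≤ 1) (r : M) : ∑ i, ‖A i r‖ ^ 2 ≤ 1 := by
  have h := Matrix.l2_opNorm_mulVec A (EuclideanSpace.single r (1:ℂ))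
  have h1 : ‖(EuclideanSpace.single r (1:ℂ) : EuclideanSpace ℂ M)‖ = 1 := by simp
  rw [h1, mul_one] at h
  have h2 := h.trans hA
  rw [EuclideanSpace.norm_eq, Real.sqrt_le_iff] at h2
  refine le_trans (le_of_eq ?_) (h2.2.trans (by norm_num))
  refine Finset.sum_congr rfl fun i _ => ?_
  simp

lemma row_le (A : Matrix N M ℂ) (hA : ‖A‖ ≤ 1) (i : N) : ∑ r, ‖A i r‖ ^ 2 ≤ 1 := by
  have h := col_le Aᴴ (by rwa [Matrix.l2_opNorm_conjTranspose]) i
  refine le_trans (le_of_eq ?_) h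
  refine Finset.sum_congr rfl fun r _ => ?_
  simp

lemma weight_le (T : Matrix M M ℂ) (hT : ‖T‖ ≤ 1) (σ : M → ℝ) :
    ∑ r, ∑ s, σ r * σ s * ‖T r s‖ ^ 2 ≤ ∑ r, σ r ^ 2 := by
  have h1 : ∑ r, ∑ s, σ r * σ s * ‖T r s‖ ^ 2
      ≤ ∑ r, ∑ s, (σ r ^ 2 / 2 * ‖T r s‖ ^ 2 + σ s ^ 2 / 2 * ‖T r s‖ ^ 2) := by
    refine Finset.sum_le_sum fun r _ => Finset.sum_le_sum fun s _ => ?_
    have : σ r * σ s ≤ σ r ^ 2 / 2 + σ s ^ 2 / 2 := by nlinarith [sq_nonneg (σ r - σ s)]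
    nlinarith [sq_nonneg ‖T r s‖]
  refine h1.trans ?_
  have h2 : ∑ r, ∑ s, (σ r ^ 2 / 2 * ‖T r s‖ ^ 2 + σ s ^ 2 / 2 * ‖T r s‖ ^ 2)
      = ∑ r, σ r ^ 2 / 2 * ∑ s, ‖T r s‖ ^ 2 + ∑ s, σ s ^ 2 / 2 * ∑ r, ‖T r s‖ ^ 2 := by
    simp_rw [Finset.sum_add_distrib, Finset.mul_sum]
    congr 1
    rw [Finset.sum_comm]
  rw [h2]
  have h3 : ∑ r, σ r ^ 2 / 2 * ∑ s, ‖T r s‖ ^ 2 ≤ ∑ r, σ r ^ 2 / 2 :=
    Finset.sum_le_sum fun r _ => mul_le_of_le_one_right (by positivity) (row_le T hT r)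
  have h4 : ∑ s, σ s ^ 2 / 2 * ∑ r, ‖T r s‖ ^ 2 ≤ ∑ s, σ s ^ 2 / 2 :=
    Finset.sum_le_sum fun s _ => mul_le_of_le_one_right (by positivity) (col_le T hT s)
  have h5 : ∑ r, σ r ^ 2 / 2 + ∑ r, σ r ^ 2 / 2 = ∑ r, σ r ^ 2 := by
    rw [← Finset.sum_add_distrib]
    exact Finset.sum_congr rfl fun r _ => by ring
  linarith

/-- Hilbert-Schmidt norm squared -/
def hs (Y : Matrix N M ℂ) : ℝ := ∑ i, ∑ r, ‖Y i r‖ ^ 2

lemma hs_nonneg (Y : Matrix N M ℂ) : 0 ≤ hs Y :=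
  Finset.sum_nonneg fun _ _ => Finset.sum_nonneg fun _ _ => sq_nonneg _

lemma trace_hs (Y : Matrix N M ℂ) : (Yᴴ * Y).trace = (hs Y : ℂ) := by
  simp only [Matrix.trace, Matrix.diag_apply, Matrix.mul_apply, Matrix.conjTranspose_apply, hs]
  rw [Finset.sum_comm]
  push_cast
  refine Finset.sum_congr rfl fun i _ => Finset.sum_congr rfl fun r _ => ?_
  rw [Complex.star_def, Complex.conj_mul']

lemma norm_le_one_of {W : Matrix N M ℂ} {v : M → ℂ} (h : Wᴴ * W = Matrix.diagonal v)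
    (hv : ∀ r, ‖v r‖ ≤ 1) : ‖W‖ ≤ 1 := by
  have h1 := Matrix.l2_opNorm_conjTranspose_mul_self W
  rw [h, Matrix.l2_opNorm_diagonal] at h1
  have h2 : ‖v‖ ≤ 1 := (pi_norm_le_iff_of_nonneg zero_le_one).2 hv
  nlinarith [norm_nonneg W]

/-- Schmidt decomposition of the bilinear form. -/
lemma schmidt (Y : Matrix N M ℂ) : ∃ (α : Matrix N N ℂ → M → M → ℂ) (β : Matrix M M ℂ → M → M → ℂ),
    (∀ A B, (Yᴴ * A * Y * B).trace = ∑ r, ∑ s, α A r s * β B r s) ∧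
    (∀ A, ‖A‖ ≤ 1 → ∑ r, ∑ s, ‖α A r s‖ ^ 2 ≤ hs Y) ∧
    (∀ B, ‖B‖ ≤ 1 → ∑ r, ∑ s, ‖β B r s‖ ^ 2 ≤ hs Y) := by
  have hP : (Yᴴ * Y).PosSemidef := Matrix.posSemidef_conjTranspose_mul_self Y
  have hH : (Yᴴ * Y).IsHermitian := hP.isHermitian
  set V : Matrix M M ℂ := (hH.eigenvectorUnitary : Matrix M M ℂ) with hV
  have hVV : Vᴴ * V = 1 := by
    rw [← Matrix.star_eq_conjTranspose]
    exact Unitary.coe_star_mul_self hH.eigenvectorUnitary
  have hVV' : V * Vᴴ = 1 := by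
    rw [← Matrix.star_eq_conjTranspose]
    exact Unitary.coe_mul_star_self hH.eigenvectorUnitary
  set d : M → ℝ := hH.eigenvalues with hd
  have hd0 : ∀ r, 0 ≤ d r := hP.eigenvalues_nonneg
  set G : Matrix N M ℂ := Y * V with hG
  have hGG : Gᴴ * G = Matrix.diagonal (fun r => (d r : ℂ)) := by
    have h1 := hH.spectral_theorem
    rw [Unitary.conjStarAlgAut_apply] at h1
    have h2 : Yᴴ * Y = V * Matrix.diagonal (fun r => (d r : ℂ)) * Vᴴ := by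
      rw [← Matrix.star_eq_conjTranspose V]
      exact h1
    rw [hG, Matrix.conjTranspose_mul]
    calc Vᴴ * Yᴴ * (Y * V) = Vᴴ * (Yᴴ * Y) * V := by simp only [Matrix.mul_assoc]
      _ = Vᴴ * (V * Matrix.diagonal (fun r => (d r : ℂ)) * Vᴴ) * V := by rw [h2]
      _ = (Vᴴ * V) * Matrix.diagonal (fun r => (d r : ℂ)) * (Vᴴ * V) := by
        simp only [Matrix.mul_assoc]
      _ = _ := by rw [hVV]; simp
  have hdsum : ∑ r, d r = hs Y := by
    have h1 := hH.trace_eq_sum_eigenvalues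
    rw [trace_hs] at h1
    have h2 : ((hs Y : ℝ) : ℂ) = ((∑ r, d r : ℝ) : ℂ) := by
      rw [h1]; push_cast; rfl
    exact (Complex.ofReal_injective h2).symm
  set σ : M → ℝ := fun r => Real.sqrt (d r) with hσ
  have hσ0 : ∀ r, 0 ≤ σ r := fun r => Real.sqrt_nonneg _
  have hσ2 : ∀ r, σ r ^ 2 = d r := fun r => Real.sq_sqrt (hd0 r)
  set w : M → ℝ := fun r => Real.sqrt (σ r) with hw
  have hw2 : ∀ r, w r ^ 2 = σ r := fun r => Real.sq_sqrt (hσ0 r)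
  set W : Matrix N M ℂ := G * Matrix.diagonal (fun r => ((σ r)⁻¹ : ℂ)) with hW
  have hWW : Wᴴ * W = Matrix.diagonal (fun r => ((σ r)⁻¹ : ℂ) * (d r : ℂ) * ((σ r)⁻¹ : ℂ)) := by
    rw [hW, Matrix.conjTranspose_mul, Matrix.diagonal_conjTranspose]
    calc _ = Matrix.diagonal (star fun r => ((σ r)⁻¹ : ℂ)) * (Gᴴ * G) *
          Matrix.diagonal (fun r => ((σ r)⁻¹ : ℂ)) := by simp only [Matrix.mul_assoc]
      _ = _ := by
        rw [hGG, Matrix.diagonal_mul_diagonal, Matrix.diagonal_mul_diagonal]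
        congr 1
        ext r
        simp [Complex.conj_ofReal]
  have hWn : ‖W‖ ≤ 1 := by
    refine norm_le_one_of hWW fun r => ?_
    by_cases h : σ r = 0
    · simp [h]
    · rw [← hσ2 r]
      push_cast
      have : ((σ r : ℂ))⁻¹ * (σ r : ℂ) ^ 2 * (σ r : ℂ)⁻¹ = 1 := by
        have h' : (σ r : ℂ) ≠ 0 := by exact_mod_cast h
        field_simp
      rw [this]
      simp
  have hVn : ‖V‖ ≤ 1 := by
    refine norm_le_one_of (v := fun _ => 1) ?_ (by simp)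
    rw [hVV]
    exact Matrix.diagonal_one.symm
  have hGW : G = W * Matrix.diagonal (fun r => (σ r : ℂ)) := by
    rw [hW, Matrix.mul_assoc, Matrix.diagonal_mul_diagonal]
    ext i r
    rw [Matrix.mul_diagonal]
    by_cases h : σ r = 0
    · have h1 : (Gᴴ * G) r r = 0 := by
        rw [hGG, Matrix.diagonal_apply_eq, ← hσ2 r, h]
        simp
      rw [Matrix.mul_apply] at h1
      simp only [Matrix.conjTranspose_apply, Complex.star_def, Complex.conj_mul'] at h1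
      have h2 : ∑ i, ‖G i r‖ ^ 2 = 0 := by exact_mod_cast h1
      rw [Finset.sum_eq_zero_iff_of_nonneg (fun _ _ => sq_nonneg _)] at h2
      have h3 := h2 i (Finset.mem_univ _)
      have h4 : G i r = 0 := by simpa using h3
      rw [h4, zero_mul]
    · have h' : (σ r : ℂ) ≠ 0 := by exact_mod_cast h
      rw [inv_mul_cancel₀ h', mul_one]
  have hbd : ∀ {P : Type} [Fintype P] [DecidableEq P] (U : Matrix P M ℂ) (A : Matrix P P ℂ),
      ‖U‖ ≤ 1 → ‖A‖ ≤ 1 → ‖Uᴴ * A * U‖ ≤ 1 := by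
    intro P _ _ U A hU hA
    refine (Matrix.l2_opNorm_mul _ _).trans ?_
    have h1 := Matrix.l2_opNorm_mul Uᴴ A
    rw [Matrix.l2_opNorm_conjTranspose] at h1
    have h2 : ‖Uᴴ * A‖ ≤ 1 := h1.trans (mul_le_one₀ hU (norm_nonneg _) hA)
    exact mul_le_one₀ h2 (norm_nonneg _) hU
  have hY : Y = G * Vᴴ := by
    rw [hG, Matrix.mul_assoc, hVV', Matrix.mul_one]
  refine ⟨fun A r s => (w r * w s : ℂ) * (Wᴴ * A * W) r s,
    fun B r s => (w r * w s : ℂ) * (Vᴴ * B * V) s r, ?_, ?_, ?_⟩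
  · intro A B
    have h1 : (Yᴴ * A * Y * B).trace = ((Gᴴ * A * G) * (Vᴴ * B * V)).trace := by
      have e1 : Yᴴ * A * Y * B = V * (Gᴴ * A * G * Vᴴ * B) := by
        rw [hY, Matrix.conjTranspose_mul, Matrix.conjTranspose_conjTranspose]
        simp only [Matrix.mul_assoc]
      rw [e1, Matrix.trace_mul_comm]
      simp only [Matrix.mul_assoc]
    rw [h1, Matrix.trace]
    simp only [Matrix.diag_apply]
    refine Finset.sum_congr rfl fun r _ => ?_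
    rw [Matrix.mul_apply]
    refine Finset.sum_congr rfl fun s _ => ?_
    have e2 : (Gᴴ * A * G) r s = (σ r : ℂ) * (Wᴴ * A * W) r s * (σ s : ℂ) := by
      rw [hGW, Matrix.conjTranspose_mul, Matrix.diagonal_conjTranspose]
      have : Matrix.diagonal (star fun r => (σ r : ℂ)) * Wᴴ * A *
          (W * Matrix.diagonal fun r => (σ r : ℂ))
          = Matrix.diagonal (star fun r => (σ r : ℂ)) * (Wᴴ * A * W) *
            Matrix.diagonal (fun r => (σ r : ℂ)) := by simp only [Matrix.mul_assoc]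
      rw [this, Matrix.mul_diagonal, Matrix.diagonal_mul]
      simp [Complex.conj_ofReal]
    rw [e2, ← hw2 r, ← hw2 s]
    push_cast
    ring
  · intro A hA
    have h1 := weight_le (Wᴴ * A * W) (hbd W A hWn hA) σ
    refine le_trans (le_of_eq ?_) (h1.trans (le_of_eq ?_))
    · refine Finset.sum_congr rfl fun r _ => Finset.sum_congr rfl fun s _ => ?_
      rw [norm_mul, mul_pow, ← hw2 r, ← hw2 s]
      congr 1
      rw [← Complex.ofReal_mul, Complex.norm_real, Real.norm_eq_abs, sq_abs]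
      ring
    · rw [← hdsum]
      exact Finset.sum_congr rfl fun r _ => hσ2 r
  · intro B hB
    have h1 := weight_le (Vᴴ * B * V) (hbd V B hVn hB) σ
    refine le_trans (le_of_eq ?_) (h1.trans (le_of_eq ?_))
    · rw [Finset.sum_comm]
      refine Finset.sum_congr rfl fun r _ => Finset.sum_congr rfl fun s _ => ?_
      rw [norm_mul, mul_pow, ← hw2 r, ← hw2 s]
      congr 1
      rw [← Complex.ofReal_mul, Complex.norm_real, Real.norm_eq_abs, sq_abs]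
      ring
    · rw [← hdsum]
      exact Finset.sum_congr rfl fun r _ => hσ2 r

/-- The key inequality. -/
theorem key {F : Type} [Fintype F] (K : F → F → ℂ) (κ : ℝ)
    (hK : ∀ X Z : F → ℂ, ‖∑ m, ∑ j, K m j * X m * Z j‖ ≤ κ / 2 * (∑ m, ‖X m‖ ^ 2 + ∑ j, ‖Z j‖ ^ 2))
    (A : F → Matrix N N ℂ) (B : F → Matrix M M ℂ) (hA : ∀ m, ‖A m‖ ≤ 1) (hB : ∀ j, ‖B j‖ ≤ 1)
    (hκ : 0 ≤ κ) (Y : Matrix N M ℂ) :
    ‖∑ m, ∑ j, K m j * (Yᴴ * A m * Y * B j).trace‖ ≤ κ * Fintype.card F * hs Y := by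
  obtain ⟨α, β, h, hα, hβ⟩ := schmidt Y
  have h1 : ∑ m, ∑ j, K m j * (Yᴴ * A m * Y * B j).trace
      = ∑ r, ∑ s, ∑ m, ∑ j, K m j * α (A m) r s * β (B j) r s := by
    simp_rw [h, Finset.mul_sum]
    calc _ = ∑ m, ∑ r, ∑ j, ∑ s, K m j * (α (A m) r s * β (B j) r s) :=
          Finset.sum_congr rfl fun m _ => Finset.sum_comm
      _ = ∑ r, ∑ m, ∑ j, ∑ s, K m j * (α (A m) r s * β (B j) r s) := Finset.sum_comm
      _ = ∑ r, ∑ m, ∑ s, ∑ j, K m j * (α (A m) r s * β (B j) r s) :=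
          Finset.sum_congr rfl fun r _ => Finset.sum_congr rfl fun m _ => Finset.sum_comm
      _ = ∑ r, ∑ s, ∑ m, ∑ j, K m j * (α (A m) r s * β (B j) r s) :=
          Finset.sum_congr rfl fun r _ => Finset.sum_comm
      _ = _ := by simp only [mul_assoc]
  rw [h1]
  have h2 : ‖∑ r, ∑ s, ∑ m, ∑ j, K m j * α (A m) r s * β (B j) r s‖
      ≤ ∑ r, ∑ s, κ / 2 * (∑ m, ‖α (A m) r s‖ ^ 2 + ∑ j, ‖β (B j) r s‖ ^ 2) := by
    refine (norm_sum_le _ _).trans (Finset.sum_le_sum fun r _ => ?_)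
    refine (norm_sum_le _ _).trans (Finset.sum_le_sum fun s _ => ?_)
    exact hK (fun m => α (A m) r s) (fun j => β (B j) r s)
  refine h2.trans ?_
  have h3 : ∑ r, ∑ s, κ / 2 * (∑ m, ‖α (A m) r s‖ ^ 2 + ∑ j, ‖β (B j) r s‖ ^ 2)
      = κ / 2 * (∑ m, ∑ r, ∑ s, ‖α (A m) r s‖ ^ 2 + ∑ j, ∑ r, ∑ s, ‖β (B j) r s‖ ^ 2) := by
    have e : ∀ f : F → M → M → ℝ, ∑ r, ∑ s, ∑ m, f m r s = ∑ m, ∑ r, ∑ s, f m r s := by
      intro f
      calc _ = ∑ r, ∑ m, ∑ s, f m r s := Finset.sum_congr rfl fun r _ => Finset.sum_comm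
        _ = _ := Finset.sum_comm
    simp_rw [← Finset.mul_sum, Finset.sum_add_distrib]
    rw [e, e]
  rw [h3]
  have h4 : ∑ m, ∑ r, ∑ s, ‖α (A m) r s‖ ^ 2 ≤ Fintype.card F * hs Y := by
    refine (Finset.sum_le_sum fun m _ => hα _ (hA m)).trans ?_
    simp
  have h5 : ∑ j, ∑ r, ∑ s, ‖β (B j) r s‖ ^ 2 ≤ Fintype.card F * hs Y := by
    refine (Finset.sum_le_sum fun m _ => hβ _ (hB m)).trans ?_
    simp
  calc _ ≤ κ / 2 * (Fintype.card F * hs Y + Fintype.card F * hs Y) := by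
        gcongr
    _ = _ := by ring

end Q89.JC
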